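import Mathlib
import Pool.Agent.Lib_helper97.PENT.Defs

set_option autoImplicit false

namespace Pool.Agent.PENT

open Finset

theorem t1_c {a b c N : ℤ} (h : a * c - b ^ 2 = 1) (ha : 0 < a) (hb : 0 < b) (hb2 : b ≤ N) :
    0 ≤ c ∧ c ≤ N ^ 2 + 1 := by
  have h1 : a * c = b ^ 2 + 1 := by linarith
  have h2 : 0 < a * c := by rw [h1]; positivity
  have hc : 0 < c := by
    by_contra hc
    push Not at hc
    have := mul_nonpos_of_nonneg_of_nonpos ha.le hc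
    linarith
  refine ⟨hc.le, ?_⟩
  have h3 : c ≤ a * c := le_mul_of_one_le_left hc.le ha
  have h4 : b ^ 2 ≤ N ^ 2 := pow_le_pow_left₀ hb.le hb2 2
  linarith

/-- block T1 -/
theorem TS_finite_pr (p : Par) (X : ℕ) : {τ : Pol 5 | p.TS X τ}.Finite := by
  classical
  let M : Fin 5 → ℤ := fun j => ⌈(X : ℝ) ^ (p.e j + p.ep / 50)⌉
  let B : Finset (ℤ × ℤ × ℤ × (Fin 5 → ℤ × ℤ)) :=
    Icc 0 (2 * X : ℤ) ×ˢ Icc 0 (2 * X : ℤ) ×ˢ Icc 0 ((2 * X : ℤ) ^ 2 + 1) ×ˢ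
      Fintype.piFinset (fun j => Icc 0 (M j) ×ˢ Icc 0 (M j))
  apply Set.Finite.subset (Finset.finite_toSet
    (B.image (fun t => (⟨t.1, t.2.1, t.2.2.1, t.2.2.2⟩ : Pol 5))))
  intro τ hτ
  have hτ' : p.TS X τ := hτ
  have hX : (0 : ℤ) ≤ (X : ℤ) := Int.natCast_nonneg X
  have ha : 0 < τ.a := lt_of_le_of_lt hX hτ'.ha1
  have hb : 0 < τ.b := lt_of_le_of_lt hX hτ'.hb1
  rw [Finset.mem_coe, Finset.mem_image]
  refine ⟨(τ.a, τ.b, τ.c, τ.u), ?_, rfl⟩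
  have hc := t1_c hτ'.good.disc ha hb hτ'.hb2
  simp only [B, Finset.mem_product, Finset.mem_Icc, Fintype.mem_piFinset]
  refine ⟨⟨ha.le, hτ'.ha2⟩, ⟨hb.le, hτ'.hb2⟩, hc, fun j => ?_⟩
  have h1 := hτ'.gp.pos1 j
  have h2 := hτ'.gp.pos2 j
  have h3 : nm (τ.u j) ≤ M j := by
    have h4 : (nm (τ.u j) : ℝ) ≤ ((M j : ℤ) : ℝ) := (hτ'.gp.upp j).trans (Int.le_ceil _)
    exact_mod_cast h4
  unfold nm at h3
  exact ⟨⟨h1.le, by linarith⟩, ⟨h2.le, by linarith⟩⟩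

end Pool.Agent.PENT
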